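import Pool.Agent.Helper16.FKHeis
set_option autoImplicit false

namespace Pool.Agent.Results.MP_0078c6_gt.HeisenbergFK

open Pool.Agent.Helper16.FK

/-- The approximation conjecture for Fuglede-Kadison determinants fails for the discrete Heisenberg
group, already for chains of subgroups of finite index and `1 × 1` matrices: for some such chain and
matrix the determinants over the quotients do not converge to the determinant over the group. -/
theorem result : ∃ (N : ℕ → Subgroup (Heis ℤ)) (hN : IsNormalChain N)
    (A : Matrix (Fin 1) (Fin 1) (MonoidAlgebra ℚ (Heis ℤ))),
      (∀ k, (N k).FiniteIndex) ∧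
        ¬ Filter.Tendsto (detSeq N hN A) Filter.atTop (nhds (fkDet A)) := by
  by_contra hcon
  push Not at hcon
  exact not_both (hcon (chain 2) (isNormalChain_chain le_rfl) AA inferInstance)
    (hcon (chain 3) (isNormalChain_chain (by norm_num)) AA inferInstance)

end Pool.Agent.Results.MP_0078c6_gt.HeisenbergFK
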